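import Pool.Agent.Helper91_PR.Defs

set_option autoImplicit false

/-!
# The quantile coupling is optimal for power costs with exponent at least one
-/

open MeasureTheory Set Filter Topology
open scoped ENNReal NNReal

namespace Pool.Agent.Helper86PR

open Pool.Agent.Helper91PC Pool.Agent.Helper91PR

open Classical in
/-- The quantile function. -/
noncomputable def qf (P : Measure ℝ) (u : unitInterval) : ℝ :=
  if 0 < (u : ℝ) ∧ (u : ℝ) < 1 then sInf {x | (u : ℝ) ≤ ProbabilityTheory.cdf P x} else 0

theorem qf_le_iff (P : Measure ℝ) [IsProbabilityMeasure P] {u : unitInterval} (h0 : 0 < (u : ℝ))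
    (h1 : (u : ℝ) < 1) (x : ℝ) : qf P u ≤ x ↔ (u : ℝ) ≤ ProbabilityTheory.cdf P x := by
  unfold qf
  rw [if_pos ⟨h0, h1⟩]
  set S := {x | (u : ℝ) ≤ ProbabilityTheory.cdf P x} with hS
  have hne : S.Nonempty := by
    have := (ProbabilityTheory.tendsto_cdf_atTop P).eventually (lt_mem_nhds h1)
    obtain ⟨y, hy⟩ := this.exists
    exact ⟨y, hy.le⟩
  have hbd : BddBelow S := by
    have := (ProbabilityTheory.tendsto_cdf_atBot P).eventually (gt_mem_nhds h0)
    obtain ⟨y, hy⟩ := this.exists
    refine ⟨y, fun z hz => ?_⟩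
    by_contra hlt
    push Not at hlt
    have := (ProbabilityTheory.cdf P).mono hlt.le
    have hz' : (u : ℝ) ≤ ProbabilityTheory.cdf P z := hz
    linarith
  have hmem : sInf S ∈ S := by
    have hrc := (ProbabilityTheory.cdf P).right_continuous (sInf S)
    have hrc' : Tendsto (ProbabilityTheory.cdf P) (𝓝[>] (sInf S))
        (𝓝 (ProbabilityTheory.cdf P (sInf S))) :=
      hrc.mono_left (nhdsWithin_mono _ Ioi_subset_Ici_self)
    refine ge_of_tendsto hrc' ?_
    filter_upwards [self_mem_nhdsWithin] with y hy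
    obtain ⟨z, hz, hzy⟩ := exists_lt_of_csInf_lt hne hy
    exact le_trans hz ((ProbabilityTheory.cdf P).mono hzy.le)
  constructor
  · intro h
    exact le_trans hmem ((ProbabilityTheory.cdf P).mono h)
  · intro h
    exact csInf_le hbd h

theorem measurable_qf (P : Measure ℝ) [IsProbabilityMeasure P] : Measurable (qf P) := by
  apply measurable_of_Iic
  intro x
  have : qf P ⁻¹' Iic x = ({u : unitInterval | 0 < (u : ℝ) ∧ (u : ℝ) < 1} ∩
      {u : unitInterval | (u : ℝ) ≤ ProbabilityTheory.cdf P x}) ∪
      ({u : unitInterval | 0 < (u : ℝ) ∧ (u : ℝ) < 1}ᶜ ∩ {u : unitInterval | (0 : ℝ) ≤ x}) := by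
    ext u
    change qf P u ≤ x ↔ ((0 < (u : ℝ) ∧ (u : ℝ) < 1) ∧ (u : ℝ) ≤ ProbabilityTheory.cdf P x) ∨
      (¬ (0 < (u : ℝ) ∧ (u : ℝ) < 1) ∧ 0 ≤ x)
    by_cases h : 0 < (u : ℝ) ∧ (u : ℝ) < 1
    · rw [qf_le_iff P h.1 h.2]
      tauto
    · unfold qf
      rw [if_neg h]
      tauto
  rw [this]
  have m1 : MeasurableSet {u : unitInterval | 0 < (u : ℝ) ∧ (u : ℝ) < 1} := by
    apply MeasurableSet.inter
    · exact measurableSet_lt measurable_const measurable_subtype_coe
    · exact measurableSet_lt measurable_subtype_coe measurable_const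
  refine MeasurableSet.union (m1.inter ?_) (m1.compl.inter ?_)
  · exact measurableSet_le measurable_subtype_coe measurable_const
  · exact MeasurableSet.const _

theorem ae_Ioo : ∀ᵐ u : unitInterval, 0 < (u : ℝ) ∧ (u : ℝ) < 1 := by
  have h0 : ∀ᵐ u : unitInterval, u ≠ 0 := by
    rw [ae_iff]
    simp
  have h1 : ∀ᵐ u : unitInterval, u ≠ 1 := by
    rw [ae_iff]
    simp
  filter_upwards [h0, h1] with u h0 h1
  refine ⟨lt_of_le_of_ne u.2.1 ?_, lt_of_le_of_ne u.2.2 ?_⟩
  · intro h
    exact h0 (Subtype.ext h.symm)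
  · intro h
    exact h1 (Subtype.ext h)

theorem map_qf (P : Measure ℝ) [IsProbabilityMeasure P] : (volume : Measure unitInterval).map (qf P) = P := by
  have : IsProbabilityMeasure ((volume : Measure unitInterval).map (qf P)) :=
    Measure.isProbabilityMeasure_map (measurable_qf P).aemeasurable
  apply Measure.ext_of_Iic
  intro x
  rw [Measure.map_apply (measurable_qf P) measurableSet_Iic]
  have hc0 : 0 ≤ ProbabilityTheory.cdf P x := ProbabilityTheory.cdf_nonneg P x
  have hc1 : ProbabilityTheory.cdf P x ≤ 1 := ProbabilityTheory.cdf_le_one P x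
  have : (volume : Measure unitInterval) (qf P ⁻¹' Iic x) =
      volume (Iic (⟨ProbabilityTheory.cdf P x, hc0, hc1⟩ : unitInterval)) := by
    apply measure_congr
    filter_upwards [ae_Ioo] with u hu
    apply propext
    change qf P u ≤ x ↔ u ≤ (⟨ProbabilityTheory.cdf P x, hc0, hc1⟩ : unitInterval)
    rw [qf_le_iff P hu.1 hu.2]
    exact Iff.rfl
  rw [this, unitInterval.volume_Iic]
  simp only
  rw [ProbabilityTheory.cdf_eq_real, ofReal_measureReal]

/-- The coupling set has the least possible measure for the quantile coupling. -/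
theorem quantile_le (P Q : Measure ℝ) [IsProbabilityMeasure P] [IsProbabilityMeasure Q]
    (π : Measure (ℝ × ℝ)) (h1 : π.map Prod.fst = P) (h2 : π.map Prod.snd = Q) (r t : ℝ) :
    (volume : Measure unitInterval) {u | qf Q u ≤ r ∧ t < qf P u} ≤
      π {z | z.2 ≤ r ∧ t < z.1} := by
  have : IsProbabilityMeasure π := by
    constructor
    have : π.map Prod.fst univ = 1 := by rw [h1]; exact measure_univ
    rwa [Measure.map_apply measurable_fst MeasurableSet.univ, preimage_univ] at this
  have hc0 : 0 ≤ ProbabilityTheory.cdf P t := ProbabilityTheory.cdf_nonneg P t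
  have hc1 : ProbabilityTheory.cdf P t ≤ 1 := ProbabilityTheory.cdf_le_one P t
  have hd0 : 0 ≤ ProbabilityTheory.cdf Q r := ProbabilityTheory.cdf_nonneg Q r
  have hd1 : ProbabilityTheory.cdf Q r ≤ 1 := ProbabilityTheory.cdf_le_one Q r
  have e1 : (volume : Measure unitInterval) {u | qf Q u ≤ r ∧ t < qf P u} =
      volume (Ioc (⟨ProbabilityTheory.cdf P t, hc0, hc1⟩ : unitInterval)
        ⟨ProbabilityTheory.cdf Q r, hd0, hd1⟩) := by
    apply measure_congr
    filter_upwards [ae_Ioo] with u hu
    apply propext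
    change (qf Q u ≤ r ∧ t < qf P u) ↔ (ProbabilityTheory.cdf P t < u ∧ (u : ℝ) ≤ ProbabilityTheory.cdf Q r)
    rw [qf_le_iff Q hu.1 hu.2, ← not_le, qf_le_iff P hu.1 hu.2, not_le, and_comm]
  rw [e1, unitInterval.volume_Ioc]
  simp only
  have e2 : π {z : ℝ × ℝ | z.2 ≤ r} = ENNReal.ofReal (ProbabilityTheory.cdf Q r) := by
    rw [ProbabilityTheory.cdf_eq_real, ofReal_measureReal, ← h2,
      Measure.map_apply measurable_snd measurableSet_Iic]
    rfl
  have e3 : π {z : ℝ × ℝ | z.1 ≤ t} = ENNReal.ofReal (ProbabilityTheory.cdf P t) := by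
    rw [ProbabilityTheory.cdf_eq_real, ofReal_measureReal, ← h1,
      Measure.map_apply measurable_fst measurableSet_Iic]
    rfl
  rw [ENNReal.ofReal_sub _ hc0, ← e2, ← e3]
  refine (le_measure_sdiff).trans (measure_mono ?_)
  rintro z ⟨hz1, hz2⟩
  exact ⟨hz1, not_le.mp hz2⟩

/-- The positive part of a difference, as an integral over the thresholds. -/
theorem lintegral_ofReal_sub {Ω : Type*} [MeasurableSpace Ω] (μ : Measure Ω) [SFinite μ]
    {X Y : Ω → ℝ} (hX : Measurable X) (hY : Measurable Y) (s : ℝ) :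
    ∫⁻ ω, ENNReal.ofReal (X ω - Y ω - s) ∂μ = ∫⁻ t : ℝ, μ {ω | Y ω ≤ t - s ∧ t < X ω} := by
  have hm : MeasurableSet {p : Ω × ℝ | Y p.1 ≤ p.2 - s ∧ p.2 < X p.1} := by
    apply MeasurableSet.inter
    · exact measurableSet_le (hY.comp measurable_fst) (measurable_snd.sub_const s)
    · exact measurableSet_lt measurable_snd (hX.comp measurable_fst)
  have h1 := Measure.prod_apply (μ := μ) (ν := (volume : Measure ℝ)) hm
  have h2 := Measure.prod_apply_symm (μ := μ) (ν := (volume : Measure ℝ)) hm
  rw [h1] at h2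
  rw [← show ∫⁻ y, μ ((fun x => (x, y)) ⁻¹' {p : Ω × ℝ | Y p.1 ≤ p.2 - s ∧ p.2 < X p.1}) =
    ∫⁻ t : ℝ, μ {ω | Y ω ≤ t - s ∧ t < X ω} from rfl, ← h2]
  refine lintegral_congr fun ω => ?_
  have : Prod.mk ω ⁻¹' {p : Ω × ℝ | Y p.1 ≤ p.2 - s ∧ p.2 < X p.1} = Ico (Y ω + s) (X ω) := by
    ext t
    change (Y ω ≤ t - s ∧ t < X ω) ↔ (Y ω + s ≤ t ∧ t < X ω)
    rw [le_sub_iff_add_le]
  rw [this, Real.volume_Ico]
  congr 1
  ring

/-- The mixture representation of the power. -/
theorem exists_mixture (q : ℝ) (hq : 1 ≤ q) : ∃ ν : Measure ℝ, SFinite ν ∧ ν (Iio 0) = 0 ∧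
    ∀ d : ℝ, 0 ≤ d → ENNReal.ofReal (d ^ q) = ∫⁻ s, ENNReal.ofReal (d - s) ∂ν := by
  rcases hq.eq_or_lt with rfl | hq
  · refine ⟨Measure.dirac 0, inferInstance, by simp, fun d hd => ?_⟩
    rw [lintegral_dirac]
    simp
  · refine ⟨(volume.restrict (Ioi 0)).withDensity fun s => ENNReal.ofReal (q * (q - 1) * s ^ (q - 2)),
      inferInstance, ?_, fun d hd => ?_⟩
    · apply withDensity_absolutelyContinuous
      rw [Measure.restrict_apply measurableSet_Iio]
      have : Iio (0 : ℝ) ∩ Ioi 0 = ∅ := by
        ext x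
        simp only [mem_inter_iff, mem_Iio, mem_Ioi, mem_empty_iff_false, iff_false]
        intro h
        linarith [h.1, h.2]
      rw [this, measure_empty]
    · rw [lintegral_withDensity_eq_lintegral_mul _ (by fun_prop) (by fun_prop)]
      have e1 : ∫⁻ s in Ioi (0 : ℝ), ((fun s => ENNReal.ofReal (q * (q - 1) * s ^ (q - 2))) *
          fun s => ENNReal.ofReal (d - s)) s =
          ∫⁻ s in Ioc (0 : ℝ) d, ENNReal.ofReal (q * (q - 1) * d * s ^ (q - 2) -
            q * (q - 1) * s ^ (q - 1)) := by
        rw [← lintegral_indicator measurableSet_Ioi, ← lintegral_indicator measurableSet_Ioc]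
        refine lintegral_congr fun s => ?_
        by_cases hs : s ∈ Ioc 0 d
        · rw [indicator_of_mem hs, indicator_of_mem (show s ∈ Ioi 0 from hs.1)]
          simp only [Pi.mul_apply]
          have hs0 : 0 < s := hs.1
          rw [← ENNReal.ofReal_mul (by
            have : 0 ≤ s ^ (q - 2) := Real.rpow_nonneg hs0.le _
            have : 0 ≤ q * (q - 1) := by nlinarith
            positivity)]
          congr 1
          have : s ^ (q - 1) = s ^ (q - 2) * s := by
            rw [← Real.rpow_add_one hs0.ne']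
            congr 1
            ring
          rw [this]
          ring
        · rw [indicator_of_notMem hs]
          by_cases hs' : s ∈ Ioi 0
          · rw [indicator_of_mem hs']
            have : d < s := by
              by_contra h
              exact hs ⟨hs', not_lt.mp h⟩
            simp only [Pi.mul_apply]
            rw [ENNReal.ofReal_of_nonpos (by linarith : d - s ≤ 0), mul_zero]
          · rw [indicator_of_notMem hs']
      rw [e1]
      have hint : IntervalIntegrable (fun s : ℝ => q * (q - 1) * d * s ^ (q - 2) -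
            q * (q - 1) * s ^ (q - 1)) volume 0 d := by
        apply IntervalIntegrable.sub
        · exact (intervalIntegral.intervalIntegrable_rpow' (by linarith)).const_mul _
        · exact (intervalIntegral.intervalIntegrable_rpow' (by linarith)).const_mul _
      rw [← ofReal_integral_eq_lintegral_ofReal]
      · rw [← intervalIntegral.integral_of_le hd, intervalIntegral.integral_sub
          ((intervalIntegral.intervalIntegrable_rpow' (by linarith)).const_mul _)
          ((intervalIntegral.intervalIntegrable_rpow' (by linarith)).const_mul _),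
          intervalIntegral.integral_const_mul, intervalIntegral.integral_const_mul,
          integral_rpow (Or.inl (by linarith)), integral_rpow (Or.inl (by linarith))]
        congr 1
        rcases hd.eq_or_lt with rfl | hd
        · rw [Real.zero_rpow (by linarith), Real.zero_rpow (by linarith), Real.zero_rpow (by linarith)]
          simp
        · have h1 : d ^ (q - 2 + 1) * d = d ^ q := by
            rw [← Real.rpow_add_one hd.ne']
            congr 1
            ring
          have h2 : d ^ (q - 1 + 1) = d ^ q := by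
            congr 1
            ring
          rw [h2, Real.zero_rpow (by linarith), Real.zero_rpow (by linarith), ← h1]
          have h3 : q - 2 + 1 ≠ 0 := by
            intro h
            linarith
          have h4 : q - 1 + 1 ≠ 0 := by
            intro h
            linarith
          field_simp
          ring
      · exact (intervalIntegrable_iff_integrableOn_Ioc_of_le hd).mp hint
      · filter_upwards [ae_restrict_mem measurableSet_Ioc] with s hs
        have hs0 : 0 < s := hs.1
        have h1 : s ^ (q - 1) = s ^ (q - 2) * s := by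
          rw [← Real.rpow_add_one hs0.ne']
          congr 1
          ring
        rw [h1]
        have h2 : 0 ≤ s ^ (q - 2) := Real.rpow_nonneg hs0.le _
        have h3 : 0 ≤ q * (q - 1) := by nlinarith
        have h4 : 0 ≤ d - s := by linarith [hs.2]
        have : 0 ≤ q * (q - 1) * s ^ (q - 2) * (d - s) := by positivity
        simp only [Pi.zero_apply]
        nlinarith

theorem cost_eq {ν : Measure ℝ} (h0 : ν (Iio 0) = 0) {q : ℝ}
    (hν : ∀ d : ℝ, 0 ≤ d → ENNReal.ofReal (d ^ q) = ∫⁻ s, ENNReal.ofReal (d - s) ∂ν) (x y : ℝ) :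
    cost q x y = ∫⁻ s, (ENNReal.ofReal (x - y - s) + ENNReal.ofReal (y - x - s)) ∂ν := by
  unfold cost
  rw [hν _ (abs_nonneg _)]
  apply lintegral_congr_ae
  have hs : ∀ᵐ s ∂ν, 0 ≤ s := by
    rw [ae_iff]
    convert h0 using 2
    ext s
    simp
  filter_upwards [hs] with s hs
  rcases le_total x y with h | h
  · rw [abs_of_nonpos (by linarith), ENNReal.ofReal_of_nonpos (by linarith : x - y - s ≤ 0), zero_add]
    congr 1
    ring
  · rw [abs_of_nonneg (by linarith), ENNReal.ofReal_of_nonpos (by linarith : y - x - s ≤ 0), add_zero]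

theorem lintegral_cost {ν : Measure ℝ} [SFinite ν] (h0 : ν (Iio 0) = 0) {q : ℝ}
    (hν : ∀ d : ℝ, 0 ≤ d → ENNReal.ofReal (d ^ q) = ∫⁻ s, ENNReal.ofReal (d - s) ∂ν)
    {Ω : Type*} [MeasurableSpace Ω] (μ : Measure Ω) [SFinite μ]
    {X Y : Ω → ℝ} (hX : Measurable X) (hY : Measurable Y) :
    ∫⁻ ω, cost q (X ω) (Y ω) ∂μ =
      ∫⁻ s, ((∫⁻ t : ℝ, μ {ω | Y ω ≤ t - s ∧ t < X ω}) +
        ∫⁻ t : ℝ, μ {ω | X ω ≤ t - s ∧ t < Y ω}) ∂ν := by
  have e1 : ∀ ω, cost q (X ω) (Y ω) =
      ∫⁻ s, (ENNReal.ofReal (X ω - Y ω - s) + ENNReal.ofReal (Y ω - X ω - s)) ∂ν :=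
    fun ω => cost_eq h0 hν _ _
  simp_rw [e1]
  rw [lintegral_lintegral_swap]
  · refine lintegral_congr fun s => ?_
    rw [lintegral_add_left (by fun_prop), lintegral_ofReal_sub μ hX hY, lintegral_ofReal_sub μ hY hX]
  · apply Measurable.aemeasurable
    unfold Function.uncurry
    fun_prop

theorem large : LargeStatement := by
  intro q hq
  obtain ⟨ν, hs, h0, hν⟩ := exists_mixture q hq
  unfold optRatio
  refine iInf_le_of_le (fun P => qf (P : Measure ℝ)) (iInf_le_of_le ?_ ?_)
  · exact ⟨fun P => (measurable_qf _).aemeasurable, fun P => map_qf _⟩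
  · unfold pairRatio
    refine iInf_le_of_le 1 (iInf_le_of_le ⟨le_rfl, fun P Q => ?_⟩ (by simp))
    rw [ENNReal.coe_one, one_mul]
    unfold optimalCost
    refine le_iInf fun π => le_iInf fun hπ => ?_
    have : IsProbabilityMeasure π := by
      constructor
      have : π.map Prod.fst univ = 1 := by rw [hπ.1]; exact measure_univ
      rwa [Measure.map_apply measurable_fst MeasurableSet.univ, preimage_univ] at this
    rw [lintegral_cost h0 hν _ (measurable_qf _) (measurable_qf _),
      lintegral_cost h0 hν π measurable_fst measurable_snd]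
    refine lintegral_mono fun s => add_le_add ?_ ?_
    · exact lintegral_mono fun t => quantile_le _ _ π hπ.1 hπ.2 _ _
    · refine lintegral_mono fun t => ?_
      have := quantile_le (Q : Measure ℝ) (P : Measure ℝ) (π.map Prod.swap)
        (by rw [Measure.map_map measurable_fst measurable_swap]; exact hπ.2)
        (by rw [Measure.map_map measurable_snd measurable_swap]; exact hπ.1) (t - s) t
      refine this.trans (le_of_eq ?_)
      rw [Measure.map_apply measurable_swap]
      · rfl
      · apply MeasurableSet.inter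
        · exact measurableSet_le measurable_snd measurable_const
        · exact measurableSet_lt measurable_const measurable_fst

end Pool.Agent.Helper86PR
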