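import Pool.Agent.Helper91_PR.Defs

set_option autoImplicit false

/-!
# The quantile rule
-/

open MeasureTheory Set Filter Topology
open scoped ENNReal NNReal

namespace Pool.Agent.Helper86PR

open Pool.Agent.Helper91PC Pool.Agent.Helper91PR

/-- The comparison of two normalized quantities. -/
theorem min_mul_abs_le {A B X Y : ℝ} (hA : 0 < A) (hB : 0 < B) (hX : 0 ≤ X) (hXA : X ≤ A)
    (hY : 0 ≤ Y) (hYB : Y ≤ B) : min A B * |X / A - Y / B| ≤ |X - Y| + |A - B| := by
  rcases le_total A B with h | h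
  · rw [min_eq_left h]
    have h1 : A * |X / A - Y / B| = |X - Y + Y * (B - A) / B| := by
      rw [← abs_of_pos hA, ← abs_mul, abs_of_pos hA]
      congr 1
      field_simp
      ring
    rw [h1]
    refine (abs_add_le _ _).trans (add_le_add le_rfl ?_)
    have h2 : 0 ≤ Y * (B - A) / B := div_nonneg (mul_nonneg hY (by linarith)) hB.le
    rw [abs_of_nonneg h2, abs_of_nonpos (by linarith : A - B ≤ 0), div_le_iff₀ hB]
    nlinarith
  · rw [min_eq_right h]
    have h1 : B * |X / A - Y / B| = |X - Y + - (X * (A - B) / A)| := by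
      rw [← abs_of_pos hB, ← abs_mul, abs_of_pos hB]
      congr 1
      field_simp
      ring
    rw [h1]
    refine (abs_add_le _ _).trans (add_le_add le_rfl ?_)
    have h2 : 0 ≤ X * (A - B) / A := div_nonneg (mul_nonneg hX (by linarith)) hA.le
    rw [abs_neg, abs_of_nonneg h2, abs_of_nonneg (by linarith : 0 ≤ A - B), div_le_iff₀ hA]
    nlinarith

/-- Partial sums. -/
noncomputable def GG {a : ℕ} (p : Fin (2 * a + 1) → ℝ) (j : ℕ) : ℝ :=
  ∑ c : Fin (2 * a + 1), if (c : ℕ) < j then p c else 0

theorem GG_mono {a : ℕ} {p : Fin (2 * a + 1) → ℝ} (hp : ∀ c, 0 ≤ p c) : Monotone (GG p) := by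
  intro i j hij
  unfold GG
  apply Finset.sum_le_sum
  intro c _
  split_ifs with h1 h2
  · exact le_rfl
  · exact absurd (h1.trans_le hij) h2
  · exact hp c
  · exact le_rfl

theorem GG_zero {a : ℕ} (p : Fin (2 * a + 1) → ℝ) : GG p 0 = 0 := by
  unfold GG
  simp

theorem GG_top {a : ℕ} (p : Fin (2 * a + 1) → ℝ) : GG p (2 * a + 1) = ∑ c, p c := by
  unfold GG
  apply Finset.sum_congr rfl
  intro c _
  rw [if_pos c.2]

theorem GG_succ {a : ℕ} (p : Fin (2 * a + 1) → ℝ) (c : Fin (2 * a + 1)) :
    GG p ((c : ℕ) + 1) = GG p (c : ℕ) + p c := by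
  unfold GG
  have : p c = ∑ d : Fin (2 * a + 1), if d = c then p d else 0 := by simp
  rw [this, ← Finset.sum_add_distrib]
  apply Finset.sum_congr rfl
  intro d _
  by_cases h1 : d = c
  · subst h1
    simp
  · have h2 : (d : ℕ) ≠ c := fun h => h1 (Fin.ext h)
    by_cases h3 : (d : ℕ) < c
    · rw [if_pos (by omega), if_pos h3, if_neg h1, add_zero]
    · rw [if_neg (by omega), if_neg h3, if_neg h1, add_zero]

/-- The number of the chosen child. -/
noncomputable def cnt {a : ℕ} (p : Fin (2 * a + 1) → ℝ) (u : ℝ) : ℕ :=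
  ∑ b ∈ Finset.range (2 * a), if GG p (b + 1) ≤ u - 1 then 1 else 0

theorem cnt_le {a : ℕ} (p : Fin (2 * a + 1) → ℝ) (u : ℝ) : cnt p u ≤ 2 * a := by
  unfold cnt
  calc (∑ b ∈ Finset.range (2 * a), if GG p (b + 1) ≤ u - 1 then 1 else 0)
      ≤ ∑ b ∈ Finset.range (2 * a), 1 := by
        apply Finset.sum_le_sum
        intro b _
        split_ifs <;> omega
    _ = 2 * a := by simp

theorem lt_cnt_iff {a : ℕ} {p : Fin (2 * a + 1) → ℝ} (hp : ∀ c, 0 ≤ p c) (u : ℝ) {b : ℕ}
    (hb : b < 2 * a) : b < cnt p u ↔ GG p (b + 1) ≤ u - 1 := by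
  constructor
  · intro h
    by_contra hc
    have : cnt p u ≤ b := by
      unfold cnt
      calc (∑ b ∈ Finset.range (2 * a), if GG p (b + 1) ≤ u - 1 then 1 else 0)
          ≤ ∑ d ∈ Finset.range (2 * a), if d < b then 1 else 0 := by
            apply Finset.sum_le_sum
            intro d _
            split_ifs with h1 h2
            · exact le_rfl
            · exact absurd ((GG_mono hp (by omega : b + 1 ≤ d + 1)).trans h1) hc
            · omega
            · exact le_rfl
        _ = b := by
            rw [← Finset.sum_filter, ← Finset.card_eq_sum_ones]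
            have : (Finset.range (2 * a)).filter (fun d => d < b) = Finset.range b := by
              ext d
              simp only [Finset.mem_filter, Finset.mem_range]
              omega
            rw [this, Finset.card_range]
    omega
  · intro h
    unfold cnt
    calc b < b + 1 := Nat.lt_succ_self b
      _ = ∑ d ∈ Finset.range (2 * a), if d < b + 1 then 1 else 0 := by
            rw [← Finset.sum_filter, ← Finset.card_eq_sum_ones]
            have : (Finset.range (2 * a)).filter (fun d => d < b + 1) = Finset.range (b + 1) := by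
              ext d
              simp only [Finset.mem_filter, Finset.mem_range]
              omega
            rw [this, Finset.card_range]
      _ ≤ _ := by
            apply Finset.sum_le_sum
            intro d _
            split_ifs with h1 h2
            · exact le_rfl
            · exact absurd ((GG_mono hp (by omega : d + 1 ≤ b + 1)).trans h) h2
            · omega
            · exact le_rfl

/-- The quantile rule. -/
noncomputable def sQ {a : ℕ} (p : Fin (2 * a + 1) → ℝ) (u : ℝ) : Fin (2 * a + 1) :=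
  ⟨cnt p u, Nat.lt_succ_of_le (cnt_le p u)⟩

theorem measurable_GG {a : ℕ} (j : ℕ) : Measurable fun p : Fin (2 * a + 1) → ℝ => GG p j := by
  unfold GG
  apply Finset.measurable_sum
  intro c _
  split_ifs
  · exact measurable_pi_apply c
  · exact measurable_const

theorem measurable_sQ {a : ℕ} :
    Measurable fun z : (Fin (2 * a + 1) → ℝ) × ℝ => sQ z.1 z.2 := by
  have h : Measurable fun z : (Fin (2 * a + 1) → ℝ) × ℝ => cnt z.1 z.2 := by
    unfold cnt
    apply Finset.measurable_sum
    intro b _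
    apply Measurable.ite _ measurable_const measurable_const
    exact measurableSet_le ((measurable_GG (b + 1)).comp measurable_fst)
      (measurable_snd.sub_const 1)
  apply measurable_to_countable'
  intro c
  have : (fun z : (Fin (2 * a + 1) → ℝ) × ℝ => sQ z.1 z.2) ⁻¹' {c} =
      (fun z : (Fin (2 * a + 1) → ℝ) × ℝ => cnt z.1 z.2) ⁻¹' {(c : ℕ)} := by
    ext z
    simp only [mem_preimage, mem_singleton_iff]
    unfold sQ
    rw [Fin.ext_iff]
  rw [this]
  exact h (measurableSet_singleton _)

theorem sQ_eq_iff {a : ℕ} {p : Fin (2 * a + 1) → ℝ} (hp : ∀ c, 0 ≤ p c) (h1 : ∑ c, p c = 1)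
    {u : ℝ} (hu : u ∈ Ico (1 : ℝ) 2) (c : Fin (2 * a + 1)) :
    sQ p u = c ↔ u ∈ Ico (1 + GG p (c : ℕ)) (1 + GG p ((c : ℕ) + 1)) := by
  have hc := c.2
  have e0 : sQ p u = c ↔ cnt p u = (c : ℕ) := by
    unfold sQ
    rw [Fin.ext_iff]
  rw [e0]
  constructor
  · intro h
    constructor
    · rcases Nat.eq_zero_or_pos (c : ℕ) with h0 | h0
      · rw [h0, GG_zero]
        linarith [hu.1]
      · obtain ⟨b, hb⟩ : ∃ b, (c : ℕ) = b + 1 := ⟨(c : ℕ) - 1, by omega⟩
        have := (lt_cnt_iff hp u (b := b) (by omega)).mp (by omega)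
        rw [hb]
        linarith
    · rcases Nat.lt_or_ge (c : ℕ) (2 * a) with h0 | h0
      · have := (lt_cnt_iff hp u (b := (c : ℕ)) h0).not.mp (by omega)
        push Not at this
        linarith
      · have : (c : ℕ) + 1 = 2 * a + 1 := by omega
        rw [this, GG_top, h1]
        linarith [hu.2]
  · rintro ⟨h2, h3⟩
    apply le_antisymm
    · by_contra hlt
      push Not at hlt
      have hle := cnt_le p u
      have := (lt_cnt_iff hp u (b := (c : ℕ)) (by omega)).mp hlt
      linarith
    · by_contra hlt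
      push Not at hlt
      obtain ⟨b, hb⟩ : ∃ b, (c : ℕ) = b + 1 := ⟨(c : ℕ) - 1, by omega⟩
      have := (lt_cnt_iff hp u (b := b) (by omega)).not.mp (by omega)
      push Not at this
      rw [hb] at h2
      linarith

theorem muV_Ico {x y : ℝ} (hx : 1 ≤ x) (hy : y ≤ 2) (h : x ≤ y) : muV.real (Ico x y) = y - x := by
  unfold muV
  rw [measureReal_restrict_apply measurableSet_Ico]
  have : Ico x y ∩ Icc 1 2 = Ico x y := by
    apply inter_eq_left.mpr
    intro z hz
    exact ⟨hx.trans hz.1, hz.2.le.trans hy⟩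
  rw [this, Real.volume_real_Ico_of_le h]

theorem muV_ae : ∀ᵐ u ∂muV, u ∈ Ico (1 : ℝ) 2 := by
  unfold muV
  have h1 : ∀ᵐ u ∂(volume.restrict (Icc (1 : ℝ) 2)), u ∈ Icc (1 : ℝ) 2 :=
    ae_restrict_mem measurableSet_Icc
  have h2 : ∀ᵐ u ∂(volume.restrict (Icc (1 : ℝ) 2)), u ≠ 2 := by
    apply ae_restrict_of_ae
    rw [ae_iff]
    simp
  filter_upwards [h1, h2] with u h1 h2
  exact ⟨h1.1, lt_of_le_of_ne h1.2 h2⟩

theorem law_sQ {a : ℕ} (p : Fin (2 * a + 1) → ℝ) (hp : ∀ c, 0 ≤ p c) (h1 : ∑ c, p c = 1)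
    (c : Fin (2 * a + 1)) : muV.real {u | sQ p u = c} = p c := by
  have : muV.real {u | sQ p u = c} =
      muV.real (Ico (1 + GG p (c : ℕ)) (1 + GG p ((c : ℕ) + 1))) := by
    apply measureReal_congr
    filter_upwards [muV_ae] with u hu
    apply propext
    exact sQ_eq_iff hp h1 hu c
  rw [this, muV_Ico]
  · rw [GG_succ]
    ring
  · have := GG_mono hp (Nat.zero_le (c : ℕ))
    rw [GG_zero] at this
    linarith
  · have := GG_mono hp (show (c : ℕ) + 1 ≤ 2 * a + 1 by have := c.2; omega)
    rw [GG_top, h1] at this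
    linarith
  · have := GG_mono hp (Nat.le_succ (c : ℕ))
    simp only [Nat.succ_eq_add_one] at this
    linarith

instance : IsFiniteMeasure muV := by
  unfold muV
  infer_instance

theorem muV_Ico_le {x y : ℝ} (h : x ≤ y) : muV.real (Ico x y) ≤ y - x := by
  unfold muV
  rw [measureReal_restrict_apply measurableSet_Ico, ← Real.volume_real_Ico_of_le h]
  refine measureReal_mono inter_subset_left ?_
  rw [Real.volume_Ico]
  exact ENNReal.ofReal_ne_top

theorem integral_sQ_le {a : ℕ} (p p' : Fin (2 * a + 1) → ℝ) :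
    ∫ u, |((sQ p u : ℕ) : ℝ) - (sQ p' u : ℕ)| ∂muV ≤
      ∑ b ∈ Finset.range (2 * a), |GG p (b + 1) - GG p' (b + 1)| := by
  have h1 : ∫ u, |((sQ p u : ℕ) : ℝ) - (sQ p' u : ℕ)| ∂muV ≤
      ∫ u, ∑ b ∈ Finset.range (2 * a), (Ico (1 + min (GG p (b + 1)) (GG p' (b + 1)))
        (1 + max (GG p (b + 1)) (GG p' (b + 1)))).indicator (fun _ => (1 : ℝ)) u ∂muV := by
    apply integral_mono_of_nonneg
    · exact Filter.Eventually.of_forall fun u => abs_nonneg _
    · apply integrable_finsetSum
      intro b _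
      exact (integrable_const 1).indicator measurableSet_Ico
    · refine Filter.Eventually.of_forall fun u => ?_
      have e : ∀ p : Fin (2 * a + 1) → ℝ, ((sQ p u : ℕ) : ℝ) =
          ∑ b ∈ Finset.range (2 * a), if GG p (b + 1) ≤ u - 1 then (1 : ℝ) else 0 := by
        intro p
        change ((cnt p u : ℕ) : ℝ) = _
        unfold cnt
        push_cast
        rfl
      simp only
      rw [e p, e p', ← Finset.sum_sub_distrib]
      refine (Finset.abs_sum_le_sum_abs _ _).trans (Finset.sum_le_sum fun b _ => ?_)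
      by_cases hb1 : GG p (b + 1) ≤ u - 1
      · by_cases hb2 : GG p' (b + 1) ≤ u - 1
        · rw [if_pos hb1, if_pos hb2, sub_self, abs_zero]
          apply indicator_nonneg
          intro _ _
          norm_num
        · rw [if_pos hb1, if_neg hb2, sub_zero, abs_one, indicator_of_mem]
          push Not at hb2
          refine ⟨?_, ?_⟩
          · have := min_le_left (GG p (b + 1)) (GG p' (b + 1))
            linarith
          · have := le_max_right (GG p (b + 1)) (GG p' (b + 1))
            linarith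
      · by_cases hb2 : GG p' (b + 1) ≤ u - 1
        · rw [if_neg hb1, if_pos hb2, zero_sub, abs_neg, abs_one, indicator_of_mem]
          push Not at hb1
          refine ⟨?_, ?_⟩
          · have := min_le_right (GG p (b + 1)) (GG p' (b + 1))
            linarith
          · have := le_max_left (GG p (b + 1)) (GG p' (b + 1))
            linarith
        · rw [if_neg hb1, if_neg hb2, sub_self, abs_zero]
          apply indicator_nonneg
          intro _ _
          norm_num
  refine h1.trans ?_
  rw [integral_finsetSum _ fun b _ => (integrable_const 1).indicator measurableSet_Ico]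
  apply Finset.sum_le_sum
  intro b _
  rw [integral_indicator measurableSet_Ico, setIntegral_const, smul_eq_mul, mul_one]
  refine (muV_Ico_le (by
    have := min_le_max (a := GG p (b + 1)) (b := GG p' (b + 1))
    linarith)).trans (le_of_eq ?_)
  rw [add_sub_add_left_eq_sub, max_sub_min_eq_abs']

theorem count_between {a : ℕ} (c c' : Fin (2 * a + 1)) :
    (∑ b ∈ Finset.range (2 * a), |(if (c : ℕ) < b + 1 then (1 : ℝ) else 0) -
      (if (c' : ℕ) < b + 1 then 1 else 0)|) ≤ |((c : ℕ) : ℝ) - (c' : ℕ)| := by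
  have key : ∀ i j : ℕ, i ≤ j → (∑ b ∈ Finset.range (2 * a), |(if i < b + 1 then (1 : ℝ) else 0) -
      (if j < b + 1 then 1 else 0)|) ≤ (j : ℝ) - i := by
    intro i j hij
    calc (∑ b ∈ Finset.range (2 * a), |(if i < b + 1 then (1 : ℝ) else 0) -
      (if j < b + 1 then 1 else 0)|) ≤ ∑ b ∈ Finset.range (2 * a),
        (if b ∈ Finset.Ico i j then (1 : ℝ) else 0) := by
          apply Finset.sum_le_sum
          intro b _
          by_cases h1 : i < b + 1
          · by_cases h2 : j < b + 1
            · rw [if_pos h1, if_pos h2, sub_self, abs_zero]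
              split_ifs <;> norm_num
            · rw [if_pos h1, if_neg h2, sub_zero, abs_one, if_pos]
              rw [Finset.mem_Ico]
              omega
          · have h2 : ¬ j < b + 1 := by omega
            rw [if_neg h1, if_neg h2, sub_self, abs_zero]
            split_ifs <;> norm_num
      _ ≤ ∑ b ∈ Finset.Ico i j, (1 : ℝ) := by
          rw [← Finset.sum_filter]
          apply Finset.sum_le_sum_of_subset_of_nonneg
          · intro b hb
            exact (Finset.mem_filter.mp hb).2
          · intro _ _ _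
            norm_num
      _ = (j : ℝ) - i := by
          rw [Finset.sum_const, Nat.card_Ico, nsmul_eq_mul, mul_one, Nat.cast_sub hij]
  rcases le_total (c : ℕ) (c' : ℕ) with h | h
  · have h' : ((c : ℕ) : ℝ) ≤ (c' : ℕ) := by exact_mod_cast h
    rw [abs_of_nonpos (by linarith)]
    have := key _ _ h
    linarith
  · have h' : ((c' : ℕ) : ℝ) ≤ (c : ℕ) := by exact_mod_cast h
    rw [abs_of_nonneg (by linarith)]
    refine le_trans (le_of_eq ?_) (key _ _ h)
    apply Finset.sum_congr rfl
    intro b _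
    rw [abs_sub_comm]

theorem GG_div {a : ℕ} (x : Fin (2 * a + 1) → ℝ) (A : ℝ) (j : ℕ) :
    GG (fun c => x c / A) j = GG x j / A := by
  unfold GG
  rw [Finset.sum_div]
  apply Finset.sum_congr rfl
  intro c _
  split_ifs
  · rfl
  · rw [zero_div]

theorem GG_diff {a : ℕ} (m : Fin (2 * a + 1) → Fin (2 * a + 1) → ℝ)
    (e1 e2 : Fin (2 * a + 1) → ℝ) (hm : ∀ c c', 0 ≤ m c c') (h1 : ∀ c, 0 ≤ e1 c)
    (h2 : ∀ c, 0 ≤ e2 c) (j : ℕ) :
    |GG (fun c => ∑ c', m c c' + e1 c) j - GG (fun c' => ∑ c, m c c' + e2 c') j| ≤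
      (∑ c, ∑ c', m c c' * |(if (c : ℕ) < j then (1 : ℝ) else 0) -
        (if (c' : ℕ) < j then 1 else 0)|) + (∑ c, e1 c + ∑ c, e2 c) := by
  have e : GG (fun c => ∑ c', m c c' + e1 c) j - GG (fun c' => ∑ c, m c c' + e2 c') j =
      (∑ c, ∑ c', m c c' * ((if (c : ℕ) < j then (1 : ℝ) else 0) -
        (if (c' : ℕ) < j then 1 else 0))) +
      ((∑ c : Fin (2 * a + 1), if (c : ℕ) < j then e1 c else 0) -
        (∑ c : Fin (2 * a + 1), if (c : ℕ) < j then e2 c else 0)) := by
    unfold GG
    have s1 : (∑ c : Fin (2 * a + 1), if (c : ℕ) < j then (∑ c', m c c' + e1 c) else 0) =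
        (∑ c, ∑ c', m c c' * (if (c : ℕ) < j then (1 : ℝ) else 0)) +
        ∑ c : Fin (2 * a + 1), if (c : ℕ) < j then e1 c else 0 := by
      rw [← Finset.sum_add_distrib]
      apply Finset.sum_congr rfl
      intro c _
      split_ifs
      · simp
      · simp
    have s2 : (∑ c' : Fin (2 * a + 1), if (c' : ℕ) < j then (∑ c, m c c' + e2 c') else 0) =
        (∑ c, ∑ c', m c c' * (if (c' : ℕ) < j then (1 : ℝ) else 0)) +
        ∑ c : Fin (2 * a + 1), if (c : ℕ) < j then e2 c else 0 := by
      rw [Finset.sum_comm, ← Finset.sum_add_distrib]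
      apply Finset.sum_congr rfl
      intro c _
      split_ifs
      · simp
      · simp
    rw [s1, s2]
    have s3 : ∀ f g : Fin (2 * a + 1) → Fin (2 * a + 1) → ℝ,
        (∑ c, ∑ c', m c c' * (f c c' - g c c')) =
        (∑ c, ∑ c', m c c' * f c c') - ∑ c, ∑ c', m c c' * g c c' := by
      intro f g
      rw [← Finset.sum_sub_distrib]
      apply Finset.sum_congr rfl
      intro c _
      rw [← Finset.sum_sub_distrib]
      apply Finset.sum_congr rfl
      intro c' _
      ring
    rw [s3 (fun c _ => if (c : ℕ) < j then (1 : ℝ) else 0)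
      (fun _ c' => if (c' : ℕ) < j then (1 : ℝ) else 0)]
    ring
  rw [e]
  refine (abs_add_le _ _).trans (add_le_add ?_ ?_)
  · refine (Finset.abs_sum_le_sum_abs _ _).trans (Finset.sum_le_sum fun c _ => ?_)
    refine (Finset.abs_sum_le_sum_abs _ _).trans (Finset.sum_le_sum fun c' _ => ?_)
    rw [abs_mul, abs_of_nonneg (hm c c')]
  · have b : ∀ e : Fin (2 * a + 1) → ℝ, (∀ c, 0 ≤ e c) →
        0 ≤ (∑ c : Fin (2 * a + 1), if (c : ℕ) < j then e c else 0) ∧
        (∑ c : Fin (2 * a + 1), if (c : ℕ) < j then e c else 0) ≤ ∑ c, e c := by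
      intro e he
      constructor
      · apply Finset.sum_nonneg
        intro c _
        split_ifs
        · exact he c
        · exact le_rfl
      · apply Finset.sum_le_sum
        intro c _
        split_ifs
        · exact le_rfl
        · exact he c
    have b1 := b e1 h1
    have b2 := b e2 h2
    have n1 : 0 ≤ ∑ c, e1 c := Finset.sum_nonneg fun c _ => h1 c
    have n2 : 0 ≤ ∑ c, e2 c := Finset.sum_nonneg fun c _ => h2 c
    rw [abs_le]
    constructor <;> linarith [b1.1, b1.2, b2.1, b2.2]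

theorem ruleQ : RuleQStatement := by
  intro a
  refine ⟨⟨sQ, measurable_sQ, law_sQ, ?_⟩⟩
  intro m e1 e2 hm h1 h2 hA hB
  set A := ∑ c, ∑ c', m c c' + ∑ c, e1 c with hAd
  set B := ∑ c, ∑ c', m c c' + ∑ c, e2 c with hBd
  have n1 : 0 ≤ ∑ c, e1 c := Finset.sum_nonneg fun c _ => h1 c
  have n2 : 0 ≤ ∑ c, e2 c := Finset.sum_nonneg fun c _ => h2 c
  have hAB : |A - B| ≤ ∑ c, e1 c + ∑ c, e2 c := by
    have : A - B = ∑ c, e1 c - ∑ c, e2 c := by
      rw [hAd, hBd]
      ring
    rw [this, abs_le]
    constructor <;> linarith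
  have hXA : ∑ c, (∑ c', m c c' + e1 c) = A := by
    rw [Finset.sum_add_distrib]
  have hYB : ∑ c', (∑ c, m c c' + e2 c') = B := by
    rw [Finset.sum_add_distrib, hBd, Finset.sum_comm]
  have hx : ∀ c, 0 ≤ ∑ c', m c c' + e1 c := fun c =>
    add_nonneg (Finset.sum_nonneg fun c' _ => hm c c') (h1 c)
  have hy : ∀ c', 0 ≤ ∑ c, m c c' + e2 c' := fun c' =>
    add_nonneg (Finset.sum_nonneg fun c _ => hm c c') (h2 c')
  have hmin : 0 ≤ min A B := le_min hA.le hB.le
  refine (mul_le_mul_of_nonneg_left (integral_sQ_le _ _) hmin).trans ?_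
  rw [Finset.mul_sum]
  have step : ∀ b ∈ Finset.range (2 * a),
      min A B * |GG (fun c => (∑ c', m c c' + e1 c) / A) (b + 1) -
        GG (fun c' => (∑ c, m c c' + e2 c') / B) (b + 1)| ≤
      (∑ c, ∑ c', m c c' * |(if (c : ℕ) < b + 1 then (1 : ℝ) else 0) -
        (if (c' : ℕ) < b + 1 then 1 else 0)|) + 2 * (∑ c, e1 c + ∑ c, e2 c) := by
    intro b hb
    rw [Finset.mem_range] at hb
    rw [GG_div, GG_div]
    have mX := GG_mono hx
    have mY := GG_mono hy
    have t1 := min_mul_abs_le hA hB
      (X := GG (fun c => ∑ c', m c c' + e1 c) (b + 1))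
      (Y := GG (fun c' => ∑ c, m c c' + e2 c') (b + 1))
      (by have := mX (Nat.zero_le (b + 1)); rwa [GG_zero] at this)
      (by have := mX (show b + 1 ≤ 2 * a + 1 by omega); rwa [GG_top, hXA] at this)
      (by have := mY (Nat.zero_le (b + 1)); rwa [GG_zero] at this)
      (by have := mY (show b + 1 ≤ 2 * a + 1 by omega); rwa [GG_top, hYB] at this)
    have t2 := GG_diff m e1 e2 hm h1 h2 (b + 1)
    linarith
  refine (Finset.sum_le_sum step).trans ?_
  rw [Finset.sum_add_distrib, Finset.sum_const, Finset.card_range, nsmul_eq_mul]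
  have t3 : (∑ b ∈ Finset.range (2 * a), ∑ c : Fin (2 * a + 1), ∑ c' : Fin (2 * a + 1),
      m c c' * |(if (c : ℕ) < b + 1 then (1 : ℝ) else 0) -
        (if (c' : ℕ) < b + 1 then 1 else 0)|) ≤
      ∑ c : Fin (2 * a + 1), ∑ c' : Fin (2 * a + 1), |((c : ℕ) : ℝ) - (c' : ℕ)| * m c c' := by
    rw [Finset.sum_comm]
    apply Finset.sum_le_sum
    intro c _
    rw [Finset.sum_comm]
    apply Finset.sum_le_sum
    intro c' _
    rw [← Finset.mul_sum, mul_comm]
    exact mul_le_mul_of_nonneg_right (count_between c c') (hm c c')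
  have t4 : 0 ≤ ∑ c : Fin (2 * a + 1), ∑ c' : Fin (2 * a + 1),
      |((c : ℕ) : ℝ) - (c' : ℕ)| * m c c' :=
    Finset.sum_nonneg fun c _ => Finset.sum_nonneg fun c' _ => mul_nonneg (abs_nonneg _) (hm c c')
  push_cast
  linarith

end Pool.Agent.Helper86PR
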