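import Pool.Agent.Helper86_PR.RuleQ

set_option autoImplicit false

/-!
# The rejection rule
-/

open MeasureTheory Set Filter Topology
open scoped ENNReal NNReal

namespace Pool.Agent.Helper86PR

open Pool.Agent.Helper91PC Pool.Agent.Helper91PR

/-- The law of one trial: a uniform colour and a uniform number. -/
noncomputable def tau (a : ℕ) : Measure (Fin (2 * a + 1) × ℝ) :=
  (PMF.uniformOfFintype (Fin (2 * a + 1))).toMeasure.prod (volume.restrict (Icc 0 1))

instance : IsProbabilityMeasure (volume.restrict (Icc (0 : ℝ) 1)) := by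
  constructor
  rw [Measure.restrict_apply_univ, Real.volume_Icc]
  simp

instance (a : ℕ) : IsProbabilityMeasure (tau a) := by
  unfold tau
  infer_instance

/-- The acceptance set. -/
def acc {a : ℕ} (p : Fin (2 * a + 1) → ℝ) : Set (Fin (2 * a + 1) × ℝ) := {t | t.2 ≤ p t.1}

theorem measurable_ev {a : ℕ} :
    Measurable fun z : (Fin (2 * a + 1) → ℝ) × (Fin (2 * a + 1)) => z.1 z.2 := by
  have : (fun z : (Fin (2 * a + 1) → ℝ) × (Fin (2 * a + 1)) => z.1 z.2) =
      fun z => ∑ c : Fin (2 * a + 1), if z.2 = c then z.1 c else 0 := by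
    funext z
    simp
  rw [this]
  apply Finset.measurable_sum
  intro c _
  apply Measurable.ite
  · exact measurable_snd (measurableSet_singleton c)
  · exact (measurable_pi_apply c).comp measurable_fst
  · exact measurable_const

theorem measurableSet_acc {a : ℕ} (p : Fin (2 * a + 1) → ℝ) : MeasurableSet (acc p) :=
  measurableSet_le measurable_snd
    (measurable_ev.comp (measurable_const.prodMk measurable_fst))

theorem tau_slice {a : ℕ} (c : Fin (2 * a + 1)) (S : Set ℝ) :
    tau a ({c} ×ˢ S) = ((2 * a + 1 : ℕ) : ℝ≥0∞)⁻¹ * volume.restrict (Icc 0 1) S := by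
  unfold tau
  rw [Measure.prod_prod, PMF.toMeasure_uniformOfFintype_apply _ (measurableSet_singleton c)]
  simp

theorem restrict_Iic {x : ℝ} (_h0 : 0 ≤ x) (h1 : x ≤ 1) :
    volume.restrict (Icc (0 : ℝ) 1) (Iic x) = ENNReal.ofReal x := by
  rw [Measure.restrict_apply measurableSet_Iic]
  have : Iic x ∩ Icc 0 1 = Icc 0 x := by
    ext y
    simp only [mem_inter_iff, mem_Iic, mem_Icc]
    constructor
    · rintro ⟨h, h', _⟩
      exact ⟨h', h⟩
    · rintro ⟨h, h'⟩
      exact ⟨h', h, h'.trans h1⟩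
  rw [this, Real.volume_Icc, sub_zero]

theorem tau_acc_slice {a : ℕ} {p : Fin (2 * a + 1) → ℝ} (hp : ∀ c, 0 ≤ p c)
    (hp1 : ∀ c, p c ≤ 1) (c : Fin (2 * a + 1)) :
    tau a (acc p ∩ Prod.fst ⁻¹' {c}) =
      ((2 * a + 1 : ℕ) : ℝ≥0∞)⁻¹ * ENNReal.ofReal (p c) := by
  have : acc p ∩ Prod.fst ⁻¹' {c} = {c} ×ˢ Iic (p c) := by
    ext ⟨d, u⟩
    simp only [mem_inter_iff, mem_preimage, mem_singleton_iff, mem_prod, mem_Iic]
    change (u ≤ p d ∧ d = c) ↔ _
    constructor
    · rintro ⟨h1, rfl⟩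
      exact ⟨rfl, h1⟩
    · rintro ⟨rfl, h1⟩
      exact ⟨h1, rfl⟩
  rw [this, tau_slice, restrict_Iic (hp c) (hp1 c)]

theorem tau_eq_sum {a : ℕ} (S : Set (Fin (2 * a + 1) × ℝ)) (hS : MeasurableSet S) :
    tau a S = ∑ c, tau a (S ∩ Prod.fst ⁻¹' {c}) := by
  rw [← measure_biUnion_finset]
  · congr 1
    ext z
    simp
  · intro c _ d _ hcd
    rw [Function.onFun, Set.disjoint_left]
    rintro z ⟨_, h1⟩ ⟨_, h2⟩
    apply hcd
    have h1' : z.1 = c := h1
    have h2' : z.1 = d := h2
    rw [← h1', ← h2']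
  · intro c _
    exact hS.inter (measurable_fst (measurableSet_singleton c))

theorem le_one_of_sum {a : ℕ} {p : Fin (2 * a + 1) → ℝ} (hp : ∀ c, 0 ≤ p c)
    (h1 : ∑ c, p c = 1) (c : Fin (2 * a + 1)) : p c ≤ 1 := by
  rw [← h1]
  exact Finset.single_le_sum (fun c _ => hp c) (Finset.mem_univ c)

theorem tau_acc {a : ℕ} {p : Fin (2 * a + 1) → ℝ} (hp : ∀ c, 0 ≤ p c) (h1 : ∑ c, p c = 1) :
    tau a (acc p) = ((2 * a + 1 : ℕ) : ℝ≥0∞)⁻¹ := by
  rw [tau_eq_sum _ (measurableSet_acc p)]
  simp_rw [tau_acc_slice hp (le_one_of_sum hp h1)]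
  rw [← Finset.mul_sum, ← ENNReal.ofReal_sum_of_nonneg fun c _ => hp c, h1]
  simp

/-- The law of the sequence of trials. -/
noncomputable def muR (a : ℕ) : Measure (ℕ → Fin (2 * a + 1) × ℝ) :=
  Measure.infinitePi fun _ => tau a

instance (a : ℕ) : IsProbabilityMeasure (muR a) := by
  unfold muR
  infer_instance

theorem muR_box {a : ℕ} {S R : Set (Fin (2 * a + 1) × ℝ)} (hS : MeasurableSet S)
    (hR : MeasurableSet R) (n : ℕ) :
    muR a {ω | (∀ k < n, ω k ∈ S) ∧ ω n ∈ R} = tau a S ^ n * tau a R := by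
  have : {ω : ℕ → Fin (2 * a + 1) × ℝ | (∀ k < n, ω k ∈ S) ∧ ω n ∈ R} =
      Set.pi (Finset.range (n + 1)) (fun k => if k < n then S else R) := by
    ext ω
    rw [Set.mem_pi]
    constructor
    · rintro ⟨h1, h2⟩ k hk
      have hk' : k < n + 1 := Finset.mem_range.mp hk
      by_cases h : k < n
      · rw [if_pos h]
        exact h1 k h
      · have : k = n := by omega
        subst this
        rw [if_neg h]
        exact h2
    · intro h
      constructor
      · intro k hk
        have := h k (Finset.mem_coe.mpr (Finset.mem_range.mpr (by omega)))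
        rwa [if_pos hk] at this
      · have := h n (Finset.mem_coe.mpr (Finset.mem_range.mpr (by omega)))
        rwa [if_neg (lt_irrefl n)] at this
  rw [this]
  unfold muR
  rw [Measure.infinitePi_pi]
  · rw [Finset.prod_range_succ, if_neg (lt_irrefl n)]
    congr 1
    rw [Finset.prod_congr rfl (g := fun _ => tau a S)]
    · simp
    · intro k hk
      rw [if_pos (Finset.mem_range.mp hk)]
  · intro k _
    split_ifs
    · exact hS
    · exact hR

theorem muR_iUnion_le {a : ℕ} {S R : Set (Fin (2 * a + 1) × ℝ)} (hS : MeasurableSet S)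
    (hR : MeasurableSet R) :
    muR a (⋃ n : ℕ, {ω | (∀ k < n, ω k ∈ S) ∧ ω n ∈ R}) ≤ (tau a Sᶜ)⁻¹ * tau a R := by
  refine (measure_iUnion_le _).trans (le_of_eq ?_)
  simp_rw [muR_box hS hR]
  rw [ENNReal.tsum_mul_right, ENNReal.tsum_geometric, prob_compl_eq_one_sub hS]

theorem muR_never {a : ℕ} {S : Set (Fin (2 * a + 1) × ℝ)} (hS : MeasurableSet S)
    (h : tau a Sᶜ ≠ 0) : muR a {ω | ∀ k : ℕ, ω k ∈ S} = 0 := by
  have h1 : tau a S < 1 := by
    have := prob_compl_eq_one_sub (μ := tau a) hS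
    rw [this] at h
    exact tsub_pos_iff_lt.mp (pos_iff_ne_zero.mpr h)
  have h2 : ∀ n : ℕ, muR a {ω | ∀ k : ℕ, ω k ∈ S} ≤ tau a S ^ n := by
    intro n
    have h3 : {ω : ℕ → Fin (2 * a + 1) × ℝ | ∀ k : ℕ, ω k ∈ S} ⊆
        {ω | (∀ k < n, ω k ∈ S) ∧ ω n ∈ S} := fun ω hω => ⟨fun k _ => hω k, hω n⟩
    refine (measure_mono h3).trans ?_
    rw [muR_box hS hS]
    calc tau a S ^ n * tau a S ≤ tau a S ^ n * 1 := mul_le_mul_right prob_le_one _
      _ = tau a S ^ n := mul_one _
  have h4 := ENNReal.tendsto_pow_atTop_nhds_zero_of_lt_one h1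
  exact le_antisymm (ge_of_tendsto' h4 h2) bot_le

open Classical in
/-- The rejection rule. -/
noncomputable def sR {a : ℕ} (p : Fin (2 * a + 1) → ℝ) (ω : ℕ → Fin (2 * a + 1) × ℝ) :
    Fin (2 * a + 1) :=
  if h : ∃ n, ω n ∈ acc p then (ω (Nat.find h)).1 else 0

theorem sR_eq {a : ℕ} {p : Fin (2 * a + 1) → ℝ} {ω : ℕ → Fin (2 * a + 1) × ℝ} {n : ℕ}
    (h1 : ∀ k < n, ω k ∉ acc p) (h2 : ω n ∈ acc p) : sR p ω = (ω n).1 := by
  classical
  have h : ∃ n, ω n ∈ acc p := ⟨n, h2⟩
  unfold sR
  rw [dif_pos h]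
  have : Nat.find h = n := by
    rw [Nat.find_eq_iff]
    exact ⟨h2, h1⟩
  rw [this]

theorem measurable_sR {a : ℕ} :
    Measurable fun z : (Fin (2 * a + 1) → ℝ) × (ℕ → Fin (2 * a + 1) × ℝ) => sR z.1 z.2 := by
  classical
  apply measurable_to_countable'
  intro c
  have hacc : ∀ n : ℕ, MeasurableSet
      {z : (Fin (2 * a + 1) → ℝ) × (ℕ → Fin (2 * a + 1) × ℝ) | z.2 n ∈ acc z.1} := by
    intro n
    change MeasurableSet {z : (Fin (2 * a + 1) → ℝ) × (ℕ → Fin (2 * a + 1) × ℝ) |
      (z.2 n).2 ≤ z.1 (z.2 n).1}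
    apply measurableSet_le
    · exact measurable_snd.comp ((measurable_pi_apply n).comp measurable_snd)
    · exact measurable_ev.comp (measurable_fst.prodMk
        (measurable_fst.comp ((measurable_pi_apply n).comp measurable_snd)))
  have : (fun z : (Fin (2 * a + 1) → ℝ) × (ℕ → Fin (2 * a + 1) × ℝ) => sR z.1 z.2) ⁻¹' {c} =
      (⋃ n : ℕ, ((⋂ k : ℕ, ⋂ _ : k < n, {z | z.2 k ∈ acc z.1}ᶜ) ∩ {z | z.2 n ∈ acc z.1} ∩
        {z | (z.2 n).1 = c})) ∪
      ((⋂ k : ℕ, {z | z.2 k ∈ acc z.1}ᶜ) ∩ {_z | (0 : Fin (2 * a + 1)) = c}) := by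
    ext z
    simp only [mem_preimage, mem_singleton_iff, mem_union, mem_iUnion, mem_inter_iff, mem_iInter,
      mem_compl_iff]
    constructor
    · intro h
      by_cases hex : ∃ n, z.2 n ∈ acc z.1
      · left
        refine ⟨Nat.find hex, ⟨fun k hk => Nat.find_min hex hk, Nat.find_spec hex⟩, ?_⟩
        have := sR_eq (fun k hk => Nat.find_min hex hk) (Nat.find_spec hex)
        change (z.2 (Nat.find hex)).1 = c
        rw [← this, h]
      · right
        push Not at hex
        refine ⟨hex, ?_⟩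
        change 0 = c
        rw [← h]
        unfold sR
        rw [dif_neg (by push Not; exact hex)]
    · rintro (⟨n, ⟨h1, h2⟩, h3⟩ | ⟨h1, h2⟩)
      · rw [sR_eq h1 h2]
        exact h3
      · unfold sR
        rw [dif_neg (by push Not; exact h1)]
        exact h2
  rw [this]
  refine MeasurableSet.union (MeasurableSet.iUnion fun n => ?_) ?_
  · refine ((MeasurableSet.iInter fun k => MeasurableSet.iInter fun _ => (hacc k).compl).inter
      (hacc n)).inter ?_
    exact (measurable_fst.comp ((measurable_pi_apply n).comp measurable_snd))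
      (measurableSet_singleton c)
  · exact (MeasurableSet.iInter fun k => (hacc k).compl).inter (MeasurableSet.const _)

theorem card_inv_ne_zero (a : ℕ) : ((2 * a + 1 : ℕ) : ℝ≥0∞)⁻¹ ≠ 0 :=
  ENNReal.inv_ne_zero.mpr (ENNReal.natCast_ne_top _)

theorem card_ne_zero' (a : ℕ) : ((2 * a + 1 : ℕ) : ℝ≥0∞) ≠ 0 := by
  rw [Ne, Nat.cast_eq_zero]
  omega

theorem law_le {a : ℕ} (p : Fin (2 * a + 1) → ℝ) (hp : ∀ c, 0 ≤ p c) (h1 : ∑ c, p c = 1)
    (c : Fin (2 * a + 1)) : muR a {ω | sR p ω = c} ≤ ENNReal.ofReal (p c) := by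
  classical
  have hsub : {ω | sR p ω = c} ⊆
      (⋃ n : ℕ, {ω : ℕ → Fin (2 * a + 1) × ℝ | (∀ k < n, ω k ∈ (acc p)ᶜ) ∧
        ω n ∈ acc p ∩ Prod.fst ⁻¹' {c}}) ∪ {ω | ∀ k : ℕ, ω k ∈ (acc p)ᶜ} := by
    intro ω hω
    have hω' : sR p ω = c := hω
    by_cases hex : ∃ n, ω n ∈ acc p
    · left
      rw [mem_iUnion]
      refine ⟨Nat.find hex, fun k hk => Nat.find_min hex hk, Nat.find_spec hex, ?_⟩
      have := sR_eq (fun k hk => Nat.find_min hex hk) (Nat.find_spec hex)
      change (ω (Nat.find hex)).1 = c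
      rw [← this, hω']
    · right
      push Not at hex
      exact hex
  refine (measure_mono hsub).trans ((measure_union_le _ _).trans ?_)
  rw [muR_never (measurableSet_acc p).compl (by
    rw [compl_compl, tau_acc hp h1]
    exact card_inv_ne_zero a), add_zero]
  refine (muR_iUnion_le (measurableSet_acc p).compl
    ((measurableSet_acc p).inter (measurable_fst (measurableSet_singleton c)))).trans ?_
  rw [compl_compl, tau_acc hp h1, tau_acc_slice hp (le_one_of_sum hp h1), inv_inv, ← mul_assoc,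
    ENNReal.mul_inv_cancel (card_ne_zero' a) (ENNReal.natCast_ne_top _), one_mul]

theorem measurableSet_sR {a : ℕ} (p : Fin (2 * a + 1) → ℝ) (c : Fin (2 * a + 1)) :
    MeasurableSet {ω | sR p ω = c} :=
  (measurable_sR.comp (measurable_const.prodMk measurable_id)) (measurableSet_singleton c)

theorem law_sR {a : ℕ} (p : Fin (2 * a + 1) → ℝ) (hp : ∀ c, 0 ≤ p c) (h1 : ∑ c, p c = 1)
    (c : Fin (2 * a + 1)) : (muR a).real {ω | sR p ω = c} = p c := by
  have hle : ∀ c, (muR a).real {ω | sR p ω = c} ≤ p c := by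
    intro c
    unfold Measure.real
    exact ENNReal.toReal_le_of_le_ofReal (hp c) (law_le p hp h1 c)
  have hsum : ∑ c, (muR a).real {ω | sR p ω = c} = 1 := by
    rw [← measureReal_biUnion_finset]
    · have : (⋃ b ∈ (Finset.univ : Finset (Fin (2 * a + 1))), {ω | sR p ω = b}) = univ := by
        ext ω
        simp
      rw [this]
      simp
    · intro b _ d _ hbd
      rw [Function.onFun, Set.disjoint_left]
      intro ω h1 h2
      apply hbd
      have h1' : sR p ω = b := h1
      have h2' : sR p ω = d := h2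
      rw [← h1', ← h2']
    · intro b _
      exact measurableSet_sR p b
  have h2 : ∑ c, (p c - (muR a).real {ω | sR p ω = c}) = 0 := by
    rw [Finset.sum_sub_distrib, h1, hsum, sub_self]
  have h3 := (Finset.sum_eq_zero_iff_of_nonneg fun c _ => sub_nonneg.mpr (hle c)).mp h2 c
    (Finset.mem_univ c)
  linarith

theorem restrict_Ioc_le {x y : ℝ} :
    volume.restrict (Icc (0 : ℝ) 1) (Ioc x y) ≤ ENNReal.ofReal (y - x) := by
  rw [← Real.volume_Ioc]
  exact Measure.restrict_apply_le _ _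

theorem mismatch {a : ℕ} (p p' : Fin (2 * a + 1) → ℝ) (hp : ∀ c, 0 ≤ p c) (h1 : ∑ c, p c = 1) :
    (muR a).real {ω | sR p ω ≠ sR p' ω} ≤ ∑ c, |p c - p' c| := by
  classical
  set U := acc p ∪ acc p' with hU
  set Δ := {z : Fin (2 * a + 1) × ℝ | z.2 ∈ Ioc (min (p z.1) (p' z.1)) (max (p z.1) (p' z.1))}
    with hΔ
  have hUm : MeasurableSet U := (measurableSet_acc p).union (measurableSet_acc p')
  have mp : ∀ p : Fin (2 * a + 1) → ℝ, Measurable fun z : Fin (2 * a + 1) × ℝ => p z.1 :=
    fun p => measurable_ev.comp (measurable_const.prodMk measurable_fst)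
  have hΔm : MeasurableSet Δ := by
    apply MeasurableSet.inter
    · exact measurableSet_lt ((mp p).min (mp p')) measurable_snd
    · exact measurableSet_le measurable_snd ((mp p).max (mp p'))
  have hsub : {ω | sR p ω ≠ sR p' ω} ⊆
      (⋃ n : ℕ, {ω : ℕ → Fin (2 * a + 1) × ℝ | (∀ k < n, ω k ∈ Uᶜ) ∧ ω n ∈ Δ}) ∪
        {ω | ∀ k : ℕ, ω k ∈ Uᶜ} := by
    intro ω hω
    by_cases hex : ∃ n, ω n ∈ U
    · left
      rw [mem_iUnion]
      refine ⟨Nat.find hex, fun k hk => Nat.find_min hex hk, ?_⟩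
      have hs := Nat.find_spec hex
      have hmin : ∀ k < Nat.find hex, ω k ∉ acc p ∧ ω k ∉ acc p' := by
        intro k hk
        have := Nat.find_min hex hk
        rw [hU, mem_union, not_or] at this
        exact this
      by_contra hc
      by_cases ha1 : ω (Nat.find hex) ∈ acc p
      · by_cases ha2 : ω (Nat.find hex) ∈ acc p'
        · apply hω
          rw [sR_eq (fun k hk => (hmin k hk).1) ha1, sR_eq (fun k hk => (hmin k hk).2) ha2]
        · apply hc
          have ha1' : (ω (Nat.find hex)).2 ≤ p (ω (Nat.find hex)).1 := ha1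
          have ha2' : ¬ (ω (Nat.find hex)).2 ≤ p' (ω (Nat.find hex)).1 := ha2
          push Not at ha2'
          exact ⟨(min_le_right _ _).trans_lt ha2', ha1'.trans (le_max_left _ _)⟩
      · have ha2 : ω (Nat.find hex) ∈ acc p' := hs.resolve_left ha1
        apply hc
        have ha1' : ¬ (ω (Nat.find hex)).2 ≤ p (ω (Nat.find hex)).1 := ha1
        have ha2' : (ω (Nat.find hex)).2 ≤ p' (ω (Nat.find hex)).1 := ha2
        push Not at ha1'
        exact ⟨(min_le_left _ _).trans_lt ha1', ha2'.trans (le_max_right _ _)⟩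
    · right
      push Not at hex
      exact hex
  have hUpos : ((2 * a + 1 : ℕ) : ℝ≥0∞)⁻¹ ≤ tau a U := by
    rw [← tau_acc hp h1]
    exact measure_mono subset_union_left
  have hΔle : tau a Δ ≤ ((2 * a + 1 : ℕ) : ℝ≥0∞)⁻¹ * ENNReal.ofReal (∑ c, |p c - p' c|) := by
    rw [tau_eq_sum _ hΔm, ENNReal.ofReal_sum_of_nonneg fun c _ => abs_nonneg _, Finset.mul_sum]
    apply Finset.sum_le_sum
    intro c _
    have : Δ ∩ Prod.fst ⁻¹' {c} = {c} ×ˢ Ioc (min (p c) (p' c)) (max (p c) (p' c)) := by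
      ext ⟨d, u⟩
      simp only [mem_inter_iff, mem_preimage, mem_singleton_iff, mem_prod]
      change (u ∈ Ioc (min (p d) (p' d)) (max (p d) (p' d)) ∧ d = c) ↔ _
      constructor
      · rintro ⟨h1, rfl⟩
        exact ⟨rfl, h1⟩
      · rintro ⟨rfl, h1⟩
        exact ⟨h1, rfl⟩
    rw [this, tau_slice]
    gcongr
    refine restrict_Ioc_le.trans (le_of_eq ?_)
    rw [max_sub_min_eq_abs']
  have hmain : muR a {ω | sR p ω ≠ sR p' ω} ≤ ENNReal.ofReal (∑ c, |p c - p' c|) := by
    refine (measure_mono hsub).trans ((measure_union_le _ _).trans ?_)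
    rw [muR_never hUm.compl (by
      rw [compl_compl]
      intro h
      rw [h] at hUpos
      exact card_inv_ne_zero a (le_antisymm hUpos bot_le)), add_zero]
    refine (muR_iUnion_le hUm.compl hΔm).trans ?_
    rw [compl_compl]
    calc (tau a U)⁻¹ * tau a Δ
        ≤ (((2 * a + 1 : ℕ) : ℝ≥0∞)⁻¹)⁻¹ * (((2 * a + 1 : ℕ) : ℝ≥0∞)⁻¹ *
          ENNReal.ofReal (∑ c, |p c - p' c|)) :=
          mul_le_mul' (ENNReal.inv_le_inv.mpr hUpos) hΔle
      _ = ENNReal.ofReal (∑ c, |p c - p' c|) := by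
          rw [inv_inv, ← mul_assoc,
            ENNReal.mul_inv_cancel (card_ne_zero' a) (ENNReal.natCast_ne_top _), one_mul]
  unfold Measure.real
  exact ENNReal.toReal_le_of_le_ofReal (Finset.sum_nonneg fun c _ => abs_nonneg _) hmain

theorem ruleR : RuleRStatement := by
  classical
  intro a
  refine ⟨ℕ → Fin (2 * a + 1) × ℝ, inferInstance, inferInstance, muR a, inferInstance,
    ⟨⟨sR, measurable_sR, law_sR, ?_⟩⟩⟩
  intro m e1 e2 hm h1 h2 hA hB
  set A := ∑ c, ∑ c', m c c' + ∑ c, e1 c with hAd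
  set B := ∑ c, ∑ c', m c c' + ∑ c, e2 c with hBd
  have n1 : 0 ≤ ∑ c, e1 c := Finset.sum_nonneg fun c _ => h1 c
  have n2 : 0 ≤ ∑ c, e2 c := Finset.sum_nonneg fun c _ => h2 c
  have hAB : |A - B| ≤ ∑ c, e1 c + ∑ c, e2 c := by
    have : A - B = ∑ c, e1 c - ∑ c, e2 c := by
      rw [hAd, hBd]
      ring
    rw [this, abs_le]
    constructor <;> linarith
  have hXA : ∑ c, (∑ c', m c c' + e1 c) = A := by
    rw [Finset.sum_add_distrib]
  have hYB : ∑ c', (∑ c, m c c' + e2 c') = B := by
    rw [Finset.sum_add_distrib, hBd, Finset.sum_comm]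
  have hx : ∀ c, 0 ≤ ∑ c', m c c' + e1 c := fun c =>
    add_nonneg (Finset.sum_nonneg fun c' _ => hm c c') (h1 c)
  have hy : ∀ c', 0 ≤ ∑ c, m c c' + e2 c' := fun c' =>
    add_nonneg (Finset.sum_nonneg fun c _ => hm c c') (h2 c')
  have hmin : 0 ≤ min A B := le_min hA.le hB.le
  set p : Fin (2 * a + 1) → ℝ := fun c => (∑ c', m c c' + e1 c) / A with hp
  set p' : Fin (2 * a + 1) → ℝ := fun c' => (∑ c, m c c' + e2 c') / B with hp'
  have hp0 : ∀ c, 0 ≤ p c := fun c => div_nonneg (hx c) hA.le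
  have hp1 : ∑ c, p c = 1 := by
    rw [hp, ← Finset.sum_div, hXA, div_self hA.ne']
  have hint : ∫ ω, (if sR p ω = sR p' ω then (0 : ℝ) else 1) ∂(muR a) =
      (muR a).real {ω | sR p ω ≠ sR p' ω} := by
    have hmeas : MeasurableSet {ω | sR p ω ≠ sR p' ω} := by
      have : {ω | sR p ω ≠ sR p' ω} = {ω | sR p ω = sR p' ω}ᶜ := rfl
      rw [this]
      apply MeasurableSet.compl
      exact measurableSet_eq_fun (measurable_sR.comp (measurable_const.prodMk measurable_id))
        (measurable_sR.comp (measurable_const.prodMk measurable_id))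
    rw [← integral_indicator_one hmeas]
    congr 1
    funext ω
    by_cases h : sR p ω = sR p' ω
    · rw [if_pos h, indicator_of_notMem]
      intro h'
      exact h' h
    · rw [if_neg h, indicator_of_mem (show ω ∈ {ω | sR p ω ≠ sR p' ω} from h)]
      rfl
  change min A B * ∫ ω, (if sR p ω = sR p' ω then (0 : ℝ) else 1) ∂(muR a) ≤ _
  rw [hint]
  refine (mul_le_mul_of_nonneg_left (mismatch p p' hp0 hp1) hmin).trans ?_
  have hstep : min A B * ∑ c, |p c - p' c| ≤
      ∑ c, |(∑ c', m c c' + e1 c) - (∑ c', m c' c + e2 c)| + |A - B| := by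
    have e0 : ∑ c, (p c - p' c) = 0 := by
      rw [Finset.sum_sub_distrib, hp1, hp', ← Finset.sum_div, hYB, div_self hB.ne', sub_self]
    rw [Finset.mul_sum]
    rcases le_total A B with h | h
    · rw [min_eq_left h]
      have : ∀ c, A * |p c - p' c| ≤ |(∑ c', m c c' + e1 c) - (∑ c', m c' c + e2 c)| +
          p' c * (B - A) := by
        intro c
        have h3 : A * |p c - p' c| =
            |(∑ c', m c c' + e1 c) - (∑ c', m c' c + e2 c) + p' c * (B - A)| := by
          rw [← abs_of_pos hA, ← abs_mul, abs_of_pos hA]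
          congr 1
          simp only [hp, hp']
          field_simp
          ring
        rw [h3]
        refine (abs_add_le _ _).trans (add_le_add le_rfl (le_of_eq ?_))
        rw [abs_of_nonneg (mul_nonneg (div_nonneg (hy c) hB.le) (by linarith))]
      refine (Finset.sum_le_sum fun c _ => this c).trans (le_of_eq ?_)
      rw [Finset.sum_add_distrib, ← Finset.sum_mul]
      have : ∑ c, p' c = 1 := by
        rw [hp', ← Finset.sum_div, hYB, div_self hB.ne']
      rw [this, one_mul, abs_of_nonpos (by linarith : A - B ≤ 0), neg_sub]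
    · rw [min_eq_right h]
      have : ∀ c, B * |p c - p' c| ≤ |(∑ c', m c c' + e1 c) - (∑ c', m c' c + e2 c)| +
          p c * (A - B) := by
        intro c
        have h3 : B * |p c - p' c| =
            |(∑ c', m c c' + e1 c) - (∑ c', m c' c + e2 c) + - (p c * (A - B))| := by
          rw [← abs_of_pos hB, ← abs_mul, abs_of_pos hB]
          congr 1
          simp only [hp, hp']
          field_simp
          ring
        rw [h3]
        refine (abs_add_le _ _).trans (add_le_add le_rfl (le_of_eq ?_))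
        rw [abs_neg, abs_of_nonneg (mul_nonneg (hp0 c) (by linarith))]
      refine (Finset.sum_le_sum fun c _ => this c).trans (le_of_eq ?_)
      rw [Finset.sum_add_distrib, ← Finset.sum_mul, hp1, one_mul,
        abs_of_nonneg (by linarith : 0 ≤ A - B)]
  have hsum : ∑ c, |(∑ c', m c c' + e1 c) - (∑ c', m c' c + e2 c)| ≤
      2 * (∑ c, ∑ c', (if c = c' then 0 else 1) * m c c') + (∑ c, e1 c + ∑ c, e2 c) := by
    have : ∀ c, |(∑ c', m c c' + e1 c) - (∑ c', m c' c + e2 c)| ≤
        (∑ c', (if c = c' then 0 else 1) * m c c') +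
        (∑ c', (if c' = c then 0 else 1) * m c' c) + (e1 c + e2 c) := by
      intro c
      have s1 : ∑ c', m c c' = m c c + ∑ c', (if c = c' then 0 else 1) * m c c' := by
        have : m c c = ∑ c', if c = c' then m c c' else 0 := by simp
        conv_rhs => rw [this]
        rw [← Finset.sum_add_distrib]
        apply Finset.sum_congr rfl
        intro c' _
        split_ifs <;> ring
      have s2 : ∑ c', m c' c = m c c + ∑ c', (if c' = c then 0 else 1) * m c' c := by
        have : m c c = ∑ c', if c' = c then m c' c else 0 := by simp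
        conv_rhs => rw [this]
        rw [← Finset.sum_add_distrib]
        apply Finset.sum_congr rfl
        intro c' _
        split_ifs <;> ring
      rw [s1, s2]
      have p1 : 0 ≤ ∑ c', (if c = c' then 0 else 1) * m c c' := by
        apply Finset.sum_nonneg
        intro c' _
        split_ifs
        · simp
        · simpa using hm c c'
      have p2 : 0 ≤ ∑ c', (if c' = c then 0 else 1) * m c' c := by
        apply Finset.sum_nonneg
        intro c' _
        split_ifs
        · simp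
        · simpa using hm c' c
      rw [abs_le]
      constructor <;> linarith [h1 c, h2 c]
    refine (Finset.sum_le_sum fun c _ => this c).trans (le_of_eq ?_)
    rw [Finset.sum_add_distrib, Finset.sum_add_distrib, Finset.sum_add_distrib]
    have : ∑ c, ∑ c', (if c' = c then (0 : ℝ) else 1) * m c' c =
        ∑ c, ∑ c', (if c = c' then 0 else 1) * m c c' := by
      rw [Finset.sum_comm]
    rw [this]
    ring
  have e3 : ∑ c, ∑ c', (if c = c' then (0 : ℝ) else 1) * m c c' =
      ∑ c, ∑ c', ((fun c c' : Fin (2 * a + 1) => if c = c' then (0 : ℝ) else 1) c c') * m c c' := rfl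
  linarith

end Pool.Agent.Helper86PR
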